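import Mathlib

set_option autoImplicit false

namespace Pool.Agent.Results.MP_1bde1f_co.Dense

/-- A path of the digraph `(V, A)`: a non-empty list of pairwise distinct vertices in which
consecutive vertices form arcs. -/
def IsPath (V : Finset ℕ) (A : Finset (ℕ × ℕ)) (p : List ℕ) : Prop :=
  p ≠ [] ∧ p.Nodup ∧ (∀ v ∈ p, v ∈ V) ∧ p.IsChain (fun u v => (u, v) ∈ A)

/-- There is a routing from `X` to `T` in the digraph `(V, A)`. -/
def Routable (V : Finset ℕ) (A : Finset (ℕ × ℕ)) (X T : Set ℕ) : Prop :=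
  ∃ R : Set (List ℕ), (∀ p ∈ R, IsPath V A p ∧ ∃ t ∈ T, p.getLast? = some t) ∧
    R.Pairwise List.Disjoint ∧ ∀ x ∈ X, ∃ p ∈ R, p.head? = some x

/-- `((V, A), T, E)` with `E` the ground set of `M` is a representation of `M`. -/
def Represents (V : Finset ℕ) (A : Finset (ℕ × ℕ)) (T : Set ℕ) (M : Matroid ℕ) : Prop :=
  (∀ a ∈ A, a.1 ∈ V ∧ a.2 ∈ V) ∧ M.E ⊆ V ∧ T ⊆ V ∧
    ∀ X, M.Indep X ↔ X ⊆ M.E ∧ Routable V A X T

/-- The three conditions for a standard representation. -/
def IsStandard (A : Finset (ℕ × ℕ)) (T E : Set ℕ) : Prop :=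
  T ⊆ E ∧ (∀ a ∈ A, a.1 ∉ T) ∧ ∀ a ∈ A, a.2 ∉ E \ T

/-- The arc-complexity: the least number of arcs of a standard representation. -/
noncomputable def arcC (M : Matroid ℕ) : ℕ :=
  sInf {n | ∃ V A T, Represents V A T M ∧ IsStandard A T M.E ∧ A.card = n}

/-! ### Transport of routings -/

lemma mem_of_chain {A : Finset (ℕ × ℕ)} {U : Set ℕ} (hA : ∀ a ∈ A, a.2 ∈ U) :
    ∀ (p : List ℕ) (x : ℕ), x ∈ U → (x :: p).IsChain (fun u v => (u, v) ∈ A) →
      ∀ v ∈ x :: p, v ∈ U := by
  intro p
  induction p with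
  | nil => intro x hx _ v hv; rw [List.mem_singleton.1 hv]; exact hx
  | cons y q ih =>
    intro x hx hc v hv
    rw [List.isChain_cons_cons] at hc
    rcases List.mem_cons.1 hv with h | h
    · rw [h]; exact hx
    · exact ih y (hA _ hc.1) hc.2 v h

lemma transport {V V' : Finset ℕ} {A A' : Finset (ℕ × ℕ)} {X T U : Set ℕ} {φ : ℕ → ℕ}
    (hX : X ⊆ U) (hA : ∀ a ∈ A, a.2 ∈ U) (hφ : Set.InjOn φ U) (hφX : ∀ x ∈ X, φ x = x)
    (hφT : ∀ t ∈ T, φ t = t) (hφA : ∀ a ∈ A, (φ a.1, φ a.2) ∈ A') (hφV : ∀ u ∈ U, φ u ∈ V')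
    (h : Routable V A X T) : Routable V' A' X T := by
  obtain ⟨R, h1, h2, h3⟩ := h
  have hU : ∀ p ∈ R, (∃ x ∈ X, p.head? = some x) → ∀ v ∈ p, v ∈ U := by
    rintro p hp ⟨x, hx, hpx⟩
    obtain ⟨q, rfl⟩ : ∃ q, p = x :: q := by
      cases p with
      | nil => simp at hpx
      | cons y q => exact ⟨q, by simp at hpx; rw [hpx]⟩
    exact mem_of_chain hA q x (hX hx) (h1 _ hp).1.2.2.2
  refine ⟨{q | ∃ p ∈ R, (∃ x ∈ X, p.head? = some x) ∧ q = p.map φ}, ?_, ?_, ?_⟩
  · rintro _ ⟨p, hp, hx, rfl⟩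
    obtain ⟨⟨e1, e2, _, e4⟩, t, ht, e5⟩ := h1 p hp
    have hpU := hU p hp hx
    refine ⟨⟨by simpa using e1, ?_, ?_, ?_⟩, t, ht, ?_⟩
    · exact e2.map_on fun a ha b hb hab => hφ (hpU a ha) (hpU b hb) hab
    · intro v hv
      obtain ⟨u, hu, rfl⟩ := List.mem_map.1 hv
      exact hφV u (hpU u hu)
    · rw [List.isChain_map]
      exact e4.imp fun a b hab => hφA (a, b) hab
    · rw [List.getLast?_map, e5]
      simp [hφT t ht]
  · rintro _ ⟨p, hp, hx, rfl⟩ _ ⟨q, hq, hy, rfl⟩ hne v hv hv'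
    obtain ⟨a, ha, rfl⟩ := List.mem_map.1 hv
    obtain ⟨b, hb, hab⟩ := List.mem_map.1 hv'
    have : b = a := hφ (hU q hq hy b hb) (hU p hp hx a ha) hab
    subst this
    have hpq : p ≠ q := fun h => hne (by rw [h])
    exact h2 hp hq hpq ha hb
  · intro x hx
    obtain ⟨p, hp, hpx⟩ := h3 x hx
    refine ⟨p.map φ, ⟨p, hp, ⟨x, hx, hpx⟩, rfl⟩, ?_⟩
    rw [List.head?_map, hpx]
    simp [hφX x hx]

/-! ### Fundamental transversal matroids -/

/-- `X` can be matched into the targets `0, ..., r - 1`. -/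
def Matchable (r : ℕ) (G : Finset (ℕ × ℕ)) (X : Set ℕ) : Prop :=
  ∃ f : ℕ → ℕ, Set.InjOn f X ∧ ∀ x ∈ X, (f x = x ∧ x < r) ∨ (x, f x) ∈ G

lemma matchable_aug {r : ℕ} {G : Finset (ℕ × ℕ)} {I J : Set ℕ} (hIf : I.Finite)
    (hI : Matchable r G I) (hJ : Matchable r G J) (hlt : I.ncard < J.ncard) :
    ∃ e ∈ J, e ∉ I ∧ Matchable r G (insert e I) := by
  classical
  obtain ⟨g, hg, hg'⟩ := hJ
  have key : ∀ k : ℕ, ∀ f : ℕ → ℕ, Set.InjOn f I → (∀ x ∈ I, (f x = x ∧ x < r) ∨ (x, f x) ∈ G) →
      {x ∈ I | f x ≠ g x}.ncard ≤ k → ∃ e ∈ J, e ∉ I ∧ Matchable r G (insert e I) := by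
    intro k
    induction k using Nat.strong_induction_on with
    | _ k ih =>
      intro f hf hf' hk
      obtain ⟨y, hy, hy'⟩ : ∃ y ∈ J, g y ∉ f '' I := by
        by_contra hc
        push Not at hc
        have h1 : g '' J ⊆ f '' I := by
          rintro _ ⟨y, hy, rfl⟩
          exact hc y hy
        have h2 := Set.ncard_le_ncard h1 (hIf.image f)
        rw [hg.ncard_image, hf.ncard_image] at h2
        omega
      have hinj : Set.InjOn (Function.update f y (g y)) (insert y I) := by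
        intro a ha b hb hab
        by_cases h1 : a = y
        · by_cases h2 : b = y
          · rw [h1, h2]
          · rw [h1, Function.update_self, Function.update_of_ne h2] at hab
            exact absurd ⟨b, hb.resolve_left h2, hab.symm⟩ hy'
        · by_cases h2 : b = y
          · rw [h2, Function.update_self, Function.update_of_ne h1] at hab
            exact absurd ⟨a, ha.resolve_left h1, hab⟩ hy'
          · rw [Function.update_of_ne h1, Function.update_of_ne h2] at hab
            exact hf (ha.resolve_left h1) (hb.resolve_left h2) hab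
      have hadj : ∀ x ∈ insert y I, (Function.update f y (g y) x = x ∧ x < r) ∨
          (x, Function.update f y (g y) x) ∈ G := by
        intro x hx
        by_cases h1 : x = y
        · rw [h1, Function.update_self]; exact hg' y hy
        · rw [Function.update_of_ne h1]; exact hf' x (hx.resolve_left h1)
      by_cases hyI : y ∈ I
      · have hne : f y ≠ g y := fun h => hy' ⟨y, hyI, h⟩
        have hss : {x ∈ I | Function.update f y (g y) x ≠ g x} ⊂ {x ∈ I | f x ≠ g x} := by
          refine ⟨fun x hx => ⟨hx.1, ?_⟩, fun h => ?_⟩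
          · by_cases h1 : x = y
            · rw [h1]; exact hne
            · have := hx.2
              rwa [Function.update_of_ne h1] at this
          · have := (h ⟨hyI, hne⟩).2
            simp at this
        have hlt' := Set.ncard_lt_ncard hss (hIf.subset fun x hx => hx.1)
        exact ih _ (lt_of_lt_of_le hlt' hk) _ (hinj.mono (Set.subset_insert _ _))
          (fun x hx => hadj x (Set.mem_insert_of_mem _ hx)) le_rfl
      · exact ⟨y, hy, hyI, _, hinj, hadj⟩
  obtain ⟨f, hf, hf'⟩ := hI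
  exact key _ f hf hf' le_rfl

/-- The transversal matroid on `0, ..., N - 1`. -/
def TM (r : ℕ) (G : Finset (ℕ × ℕ)) (N : ℕ) : Matroid ℕ :=
  (IndepMatroid.ofFinite (E := Set.Iio N) (Set.finite_Iio N)
    (fun X => X ⊆ Set.Iio N ∧ Matchable r G X)
    ⟨Set.empty_subset _, id, by simp, by simp⟩
    (fun _ _ hJ hIJ => ⟨hIJ.trans hJ.1, by
      obtain ⟨f, hf, hf'⟩ := hJ.2
      exact ⟨f, hf.mono hIJ, fun x hx => hf' x (hIJ hx)⟩⟩)
    (fun _ _ hI hJ hlt => by
      obtain ⟨e, he, he', hm⟩ := matchable_aug ((Set.finite_Iio N).subset hI.1)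
        hI.2 hJ.2 hlt
      exact ⟨e, he, he', Set.insert_subset (hJ.1 he) hI.1, hm⟩)
    (fun _ h => h.1)).matroid

lemma TM_E (r : ℕ) (G : Finset (ℕ × ℕ)) (N : ℕ) : (TM r G N).E = Set.Iio N := rfl

lemma TM_indep (r : ℕ) (G : Finset (ℕ × ℕ)) (N : ℕ) (X : Set ℕ) :
    (TM r G N).Indep X ↔ X ⊆ Set.Iio N ∧ Matchable r G X := by
  simp [TM]

/-- The admissible bipartite graphs. -/
def Good (r : ℕ) (G : Finset (ℕ × ℕ)) : Prop := ∀ a ∈ G, r ≤ a.1 ∧ a.1 < 2 * r ∧ a.2 < r

lemma routable_iff {r N : ℕ} {G : Finset (ℕ × ℕ)} (hG : Good r G) (hN : 2 * r ≤ N) {X : Set ℕ}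
    (hX : X ⊆ Set.Iio N) : Matchable r G X ↔ Routable (Finset.range N) G X (Set.Iio r) := by
  constructor
  · rintro ⟨f, hf, hf'⟩
    refine ⟨{p | ∃ x ∈ X, p = if x < r then [x] else [x, f x]}, ?_, ?_, ?_⟩
    · rintro _ ⟨x, hx, rfl⟩
      have hxN : x < N := hX hx
      split_ifs with h
      · exact ⟨⟨by simp, by simp, by simpa using hxN, by simp⟩, x, h, rfl⟩
      · have h1 : (x, f x) ∈ G := (hf' x hx).resolve_left fun h' => h h'.2
        have h2 := hG _ h1
        dsimp only at h2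
        refine ⟨⟨by simp, ?_, ?_, by simpa using h1⟩, f x, h2.2.2, rfl⟩
        · simp only [List.nodup_cons, List.mem_singleton, List.not_mem_nil, not_false_eq_true,
            List.nodup_nil, and_true]
          omega
        · intro v hv
          simp only [List.mem_cons, List.not_mem_nil, or_false] at hv
          rw [Finset.mem_range]
          omega
    · rintro _ ⟨x, hx, rfl⟩ _ ⟨y, hy, rfl⟩ hne v hv hv'
      have hxy : x ≠ y := fun h => hne (by rw [h])
      have hfxy : f x ≠ f y := fun h => hxy (hf hx hy h)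
      have e1 : (x < r → f x = x) ∧ (¬ x < r → f x < r) := by
        rcases hf' x hx with h | h
        · exact ⟨fun _ => h.1, fun h' => absurd h.2 h'⟩
        · have := hG _ h
          dsimp only at this
          exact ⟨fun h' => by omega, fun _ => this.2.2⟩
      have e2 : (y < r → f y = y) ∧ (¬ y < r → f y < r) := by
        rcases hf' y hy with h | h
        · exact ⟨fun _ => h.1, fun h' => absurd h.2 h'⟩
        · have := hG _ h
          dsimp only at this
          exact ⟨fun h' => by omega, fun _ => this.2.2⟩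
      split_ifs at hv hv' <;>
        simp only [List.mem_cons, List.not_mem_nil, or_false] at hv hv' <;> omega
    · intro x hx
      refine ⟨_, ⟨x, hx, rfl⟩, ?_⟩
      split_ifs <;> rfl
  · rintro ⟨R, h1, h2, h3⟩
    choose! P hP hP' using h3
    refine ⟨fun x => (P x).getLast?.getD 0, ?_, ?_⟩
    · intro x hx y hy hxy
      by_contra hne
      obtain ⟨s, _, hs⟩ := (h1 _ (hP x hx)).2
      obtain ⟨t, _, ht⟩ := (h1 _ (hP y hy)).2
      simp only [hs, ht, Option.getD_some] at hxy
      have hPne : P x ≠ P y := by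
        intro h
        have := hP' x hx
        rw [h, hP' y hy] at this
        exact hne (Option.some.inj this).symm
      exact h2 (hP x hx) (hP y hy) hPne (List.mem_of_getLast? hs)
        (hxy ▸ List.mem_of_getLast? ht)
    · intro x hx
      obtain ⟨⟨_, _, _, e4⟩, t, ht, e5⟩ := h1 _ (hP x hx)
      have e6 := hP' x hx
      dsimp only
      rw [e5, Option.getD_some]
      rcases hq : P x with _ | ⟨a, _ | ⟨b, _ | ⟨c, q⟩⟩⟩
      · rw [hq] at e6; simp at e6
      · rw [hq] at e5 e6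
        simp only [List.getLast?_singleton, Option.some.injEq, List.head?_cons] at e5 e6
        left
        have : t < r := ht
        omega
      · rw [hq] at e4 e5 e6
        simp only [List.head?_cons, Option.some.injEq] at e6
        have e7 : b = t := by simpa using e5
        rw [List.isChain_cons_cons] at e4
        right
        rw [← e6, ← e7]
        exact e4.1
      · rw [hq, List.isChain_cons_cons, List.isChain_cons_cons] at e4
        have e7 := hG _ e4.1
        have e8 := hG _ e4.2.1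
        dsimp only at e7 e8
        omega

lemma TM_rep {r N : ℕ} {G : Finset (ℕ × ℕ)} (hG : Good r G) (hN : 2 * r ≤ N) :
    Represents (Finset.range N) G (Set.Iio r) (TM r G N) ∧
      IsStandard G (Set.Iio r) (TM r G N).E := by
  refine ⟨⟨fun a ha => ?_, ?_, ?_, fun X => ?_⟩, ?_, fun a ha => ?_, fun a ha => ?_⟩
  · have := hG a ha
    simp only [Finset.mem_range]
    omega
  · rw [TM_E]; intro x hx; simpa using hx
  · intro x hx
    have : x < r := hx
    simp only [Finset.coe_range, Set.mem_Iio]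
    omega
  · rw [TM_indep, TM_E]
    exact and_congr_right fun hX => routable_iff hG hN hX
  · rw [TM_E]
    intro x hx
    have : x < r := hx
    simp only [Set.mem_Iio]
    omega
  · have := hG a ha
    simp only [Set.mem_Iio]
    omega
  · have := hG a ha
    exact fun h => h.2 this.2.2

lemma arcC_le {M : Matroid ℕ} {V : Finset ℕ} {A : Finset (ℕ × ℕ)} {T : Set ℕ}
    (h1 : Represents V A T M) (h2 : IsStandard A T M.E) : arcC M ≤ A.card :=
  Nat.sInf_le ⟨V, A, T, h1, h2, rfl⟩

lemma exists_opt {r N : ℕ} {G : Finset (ℕ × ℕ)} (hG : Good r G) (hN : 2 * r ≤ N) :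
    ∃ V A T, Represents V A T (TM r G N) ∧ IsStandard A T (TM r G N).E ∧
      A.card = arcC (TM r G N) :=
  Nat.sInf_mem (s := {n | ∃ V A T, Represents V A T (TM r G N) ∧
      IsStandard A T (TM r G N).E ∧ A.card = n})
    ⟨_, _, _, _, (TM_rep hG hN).1, (TM_rep hG hN).2, rfl⟩

/-- Deleting a loop does not increase the arc-complexity. -/
lemma arcC_mono {r N : ℕ} {G : Finset (ℕ × ℕ)} (hG : Good r G) (hN : 2 * r ≤ N) :
    arcC (TM r G N) ≤ arcC (TM r G (N + 1)) := by
  obtain ⟨V, A, T, ⟨h1, h2, h3, h4⟩, ⟨h5, h6, h7⟩, h8⟩ := exists_opt hG (Nat.le_succ_of_le hN)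
  rw [← h8]
  rw [TM_E] at h2 h5 h7
  have hsub : Set.Iio N ⊆ Set.Iio (N + 1) := Set.Iio_subset_Iio (Nat.le_succ N)
  have hT : T ⊆ Set.Iio N := by
    intro t ht
    have hi : (TM r G (N + 1)).Indep {t} := by
      rw [h4, TM_E]
      refine ⟨Set.singleton_subset_iff.2 (h5 ht), {[t]}, ?_, Set.pairwise_singleton _ _, ?_⟩
      · rintro _ rfl
        exact ⟨⟨by simp, by simp, by simpa using h3 ht, by simp⟩, t, ht, rfl⟩
      · rintro _ rfl
        exact ⟨[_], rfl, rfl⟩
    rw [TM_indep] at hi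
    obtain ⟨f, _, hf⟩ := hi.2
    have h9 : t < N := by
      rcases hf t rfl with h | h
      · omega
      · have := hG _ h
        dsimp only at this
        omega
    exact h9
  refine arcC_le (V := V) (T := T) ⟨h1, ?_, h3, fun X => ?_⟩ ⟨?_, h6, fun a ha h => ?_⟩
  · rw [TM_E]; exact hsub.trans h2
  · rw [TM_indep, TM_E]
    refine and_congr_right fun hX => ?_
    have := h4 X
    rw [TM_indep, TM_E] at this
    have hX' := hX.trans hsub
    simpa only [hX', true_and] using this
  · rw [TM_E]; exact hT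
  · rw [TM_E] at h
    exact h7 a ha ⟨hsub h.1, h.2⟩

/-- The matroid determines the bipartite graph. -/
lemma mem_iff_matchable {r : ℕ} {G : Finset (ℕ × ℕ)} (hG : Good r G) {s t : ℕ} (hs : r ≤ s)
    (ht : t < r) : (s, t) ∈ G ↔ Matchable r G (insert s (Set.Iio r \ {t})) := by
  constructor
  · intro h
    refine ⟨fun x => if x = s then t else x, ?_, ?_⟩
    · intro a ha b hb hab
      simp only [Set.mem_insert_iff, Set.mem_sdiff, Set.mem_Iio, Set.mem_singleton_iff] at ha hb
      dsimp only at hab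
      split_ifs at hab <;> omega
    · intro x hx
      simp only [Set.mem_insert_iff, Set.mem_sdiff, Set.mem_Iio, Set.mem_singleton_iff] at hx
      dsimp only
      split_ifs with h1
      · right; rw [h1]; exact h
      · left; omega
  · rintro ⟨f, hf, hf'⟩
    have h1 : (s, f s) ∈ G := (hf' s (Set.mem_insert _ _)).resolve_left fun h => by omega
    have h2 := hG _ h1
    dsimp only at h2
    by_cases h3 : f s = t
    · rw [← h3]; exact h1
    · have h4 : f s ∈ insert s (Set.Iio r \ {t}) := Set.mem_insert_of_mem _ ⟨h2.2.2, h3⟩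
      have h5 : f (f s) = f s := by
        rcases hf' _ h4 with h | h
        · exact h.1
        · have := hG _ h
          dsimp only at this
          omega
      have h6 := hf h4 (Set.mem_insert _ _) h5
      omega

/-! ### Counting -/

lemma exists_code {M : Matroid ℕ} {V : Finset ℕ} {A : Finset (ℕ × ℕ)} {T : Set ℕ} {n m : ℕ}
    (hE : M.E = Set.Iio n) (h1 : Represents V A T M) (h2 : IsStandard A T M.E)
    (hm : A.card ≤ m) :
    ∃ c : Finset ℕ × Finset (ℕ × ℕ), c.1 ⊆ Finset.range n ∧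
      c.2 ⊆ Finset.range (n + 2 * m) ×ˢ Finset.range (n + 2 * m) ∧ c.2.card ≤ m ∧
      ∀ X ⊆ Set.Iio n, M.Indep X ↔ Routable (Finset.range (n + 2 * m)) c.2 X c.1 := by
  classical
  obtain ⟨e1, e2, e3, e4⟩ := h1
  obtain ⟨e5, _, _⟩ := h2
  rw [hE] at e2 e4 e5
  set W : Finset ℕ := A.image Prod.fst ∪ A.image Prod.snd with hW
  have hWc : W.card ≤ 2 * m := by
    have := Finset.card_union_le (A.image Prod.fst) (A.image Prod.snd)
    have := Finset.card_image_le (s := A) (f := Prod.fst)
    have := Finset.card_image_le (s := A) (f := Prod.snd)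
    rw [hW]
    omega
  set U : Set ℕ := Set.Iio n ∪ W with hU
  set φ : ℕ → ℕ := fun v => if v < n then v else n + W.toList.idxOf v with hφ
  have hfix : ∀ v, v < n → φ v = v := fun v hv => if_pos hv
  have hmem : ∀ v ∈ U, ¬ v < n → v ∈ W.toList := fun v hv h =>
    Finset.mem_toList.2 (hv.resolve_left h)
  have hinj : Set.InjOn φ U := by
    intro a ha b hb hab
    simp only [hφ] at hab
    split_ifs at hab with h1 h2 h2
    · exact hab
    · omega
    · omega
    · exact (List.idxOf_inj (hmem a ha h1)).1 (by omega)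
  have hlt : ∀ u ∈ U, φ u < n + 2 * m := by
    intro u hu
    simp only [hφ]
    split_ifs with h
    · omega
    · have := List.idxOf_lt_length_of_mem (hmem u hu h)
      rw [Finset.length_toList] at this
      omega
  have hA1 : ∀ a ∈ A, a.1 ∈ U := fun a ha =>
    Or.inr (Finset.mem_coe.2 (Finset.mem_union_left _ (Finset.mem_image_of_mem _ ha)))
  have hA2 : ∀ a ∈ A, a.2 ∈ U := fun a ha =>
    Or.inr (Finset.mem_coe.2 (Finset.mem_union_right _ (Finset.mem_image_of_mem _ ha)))
  have hUV : ∀ u ∈ U, u ∈ V := by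
    rintro u (hu | hu)
    · exact e2 hu
    · rcases Finset.mem_union.1 hu with h | h
      · obtain ⟨a, ha, rfl⟩ := Finset.mem_image.1 h
        exact (e1 a ha).1
      · obtain ⟨a, ha, rfl⟩ := Finset.mem_image.1 h
        exact (e1 a ha).2
  have hT : (((Finset.range n).filter (· ∈ T) : Finset ℕ) : Set ℕ) = T := by
    ext t
    simp only [Finset.coe_filter, Finset.mem_range, Set.mem_ofPred_eq]
    exact ⟨fun h => h.2, fun h => ⟨e5 h, h⟩⟩
  refine ⟨((Finset.range n).filter (· ∈ T), A.image (Prod.map φ φ)), Finset.filter_subset _ _,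
    ?_, Finset.card_image_le.trans hm, fun X hX => ?_⟩
  · intro a ha
    obtain ⟨b, hb, rfl⟩ := Finset.mem_image.1 ha
    simp only [Finset.mem_product, Finset.mem_range, Prod.map_fst, Prod.map_snd]
    exact ⟨hlt _ (hA1 b hb), hlt _ (hA2 b hb)⟩
  · dsimp only
    rw [hT, e4]
    have hXU : X ⊆ U := hX.trans Set.subset_union_left
    constructor
    · intro h
      exact transport hXU hA2 hinj (fun x hx => hfix x (hX hx)) (fun t ht => hfix t (e5 ht))
        (fun a ha => Finset.mem_image_of_mem (Prod.map φ φ) ha)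
        (fun u hu => Finset.mem_range.2 (hlt u hu)) h.2
    · intro h
      have hleft : ∀ u ∈ U, Function.invFunOn φ U (φ u) = u := fun u hu =>
        hinj.leftInvOn_invFunOn hu
      have hfix' : ∀ v, v < n → Function.invFunOn φ U v = v := fun v hv => by
        have := hleft v (Or.inl hv)
        rwa [hfix v hv] at this
      refine ⟨hX, transport (U := φ '' U) (φ := Function.invFunOn φ U) ?_ ?_ ?_
        (fun x hx => hfix' x (hX hx)) (fun t ht => hfix' t (e5 ht)) ?_ ?_ h⟩
      · exact fun x hx => ⟨x, hXU hx, hfix x (hX hx)⟩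
      · intro a ha
        obtain ⟨b, hb, rfl⟩ := Finset.mem_image.1 ha
        exact ⟨b.2, hA2 b hb, rfl⟩
      · rintro _ ⟨a, ha, rfl⟩ _ ⟨b, hb, rfl⟩ hab
        rw [hleft a ha, hleft b hb] at hab
        rw [hab]
      · intro a ha
        obtain ⟨b, hb, rfl⟩ := Finset.mem_image.1 ha
        simp only [Prod.map_fst, Prod.map_snd, hleft _ (hA1 b hb), hleft _ (hA2 b hb)]
        exact hb
      · rintro _ ⟨a, ha, rfl⟩
        rw [hleft a ha]
        exact hUV a ha

lemma card_small_subsets {α : Type} [DecidableEq α] (s : Finset α) (m : ℕ) :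
    (s.powerset.filter (fun t => t.card ≤ m)).card ≤ (s.card + 1) ^ m := by
  have h1 : s.powerset.filter (fun t => t.card ≤ m) ⊆
      (Finset.range (m + 1)).biUnion (fun i => s.powersetCard i) := by
    intro t ht
    rw [Finset.mem_filter, Finset.mem_powerset] at ht
    rw [Finset.mem_biUnion]
    exact ⟨t.card, Finset.mem_range.2 (by omega), Finset.mem_powersetCard.2 ⟨ht.1, rfl⟩⟩
  refine (Finset.card_le_card h1).trans (Finset.card_biUnion_le.trans ?_)
  rw [add_pow]
  refine Finset.sum_le_sum fun i hi => ?_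
  rw [Finset.card_powersetCard, one_pow, mul_one, Nat.cast_id]
  have h2 : 0 < m.choose i := Nat.choose_pos (by have := Finset.mem_range.1 hi; omega)
  exact (Nat.choose_le_pow _ _).trans (Nat.le_mul_of_pos_right _ h2)

lemma counting {r m : ℕ} (h : ∀ G, Good r G → arcC (TM r G (2 * r)) ≤ m) :
    2 ^ (r * r) ≤ 2 ^ (2 * r) * ((2 * r + 2 * m) * (2 * r + 2 * m) + 1) ^ m := by
  classical
  have hc : ∀ G, Good r G → ∃ c : Finset ℕ × Finset (ℕ × ℕ), c.1 ⊆ Finset.range (2 * r) ∧
      c.2 ⊆ Finset.range (2 * r + 2 * m) ×ˢ Finset.range (2 * r + 2 * m) ∧ c.2.card ≤ m ∧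
      ∀ X ⊆ Set.Iio (2 * r), (TM r G (2 * r)).Indep X ↔
        Routable (Finset.range (2 * r + 2 * m)) c.2 X c.1 := by
    intro G hG
    obtain ⟨V, A, T, h1, h2, h3⟩ := exists_opt hG le_rfl
    exact exists_code (TM_E _ _ _) h1 h2 (h3 ▸ h G hG)
  choose! c hc1 hc2 hc3 hc4 using hc
  have hgood : ∀ G ∈ (Finset.Ico r (2 * r) ×ˢ Finset.range r).powerset, Good r G := by
    intro G hG a ha
    have := Finset.mem_powerset.1 hG ha
    simp only [Finset.mem_product, Finset.mem_Ico, Finset.mem_range] at this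
    omega
  have hsub : ∀ G G', Good r G → Good r G' → c G = c G' → G ⊆ G' := by
    intro G G' hG hG' hcc a ha
    have h1 := hG a ha
    have hX : insert a.1 (Set.Iio r \ {a.2}) ⊆ Set.Iio (2 * r) := by
      rintro x (hx | hx)
      · rw [hx]; exact h1.2.1
      · have : x < r := hx.1
        simp only [Set.mem_Iio]
        omega
    have h2 := (mem_iff_matchable hG h1.1 h1.2.2).1 ha
    have h3 := (hc4 G hG _ hX).1 ((TM_indep _ _ _ _).2 ⟨hX, h2⟩)
    rw [hcc] at h3
    have h4 := ((TM_indep _ _ _ _).1 ((hc4 G' hG' _ hX).2 h3)).2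
    exact (mem_iff_matchable hG' h1.1 h1.2.2).2 h4
  have hle := Finset.card_le_card_of_injOn (s := (Finset.Ico r (2 * r) ×ˢ Finset.range r).powerset)
    (t := (Finset.range (2 * r)).powerset ×ˢ
      ((Finset.range (2 * r + 2 * m) ×ˢ Finset.range (2 * r + 2 * m)).powerset.filter
        (fun t => t.card ≤ m))) c ?_ ?_
  · rw [Finset.card_powerset, Finset.card_product, Finset.card_product, Finset.card_powerset,
      Nat.card_Ico, Finset.card_range, Finset.card_range] at hle
    have h1 := card_small_subsets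
      (Finset.range (2 * r + 2 * m) ×ˢ Finset.range (2 * r + 2 * m)) m
    rw [Finset.card_product, Finset.card_range] at h1
    have h2 : 2 * r - r = r := by omega
    rw [h2] at hle
    exact hle.trans (Nat.mul_le_mul_left _ h1)
  · intro G hG
    have h1 := hgood G hG
    simp only [Finset.coe_product, Set.mem_prod, Finset.mem_coe, Finset.mem_powerset,
      Finset.mem_filter]
    exact ⟨hc1 G h1, hc2 G h1, hc3 G h1⟩
  · intro G hG G' hG' hcc
    exact Finset.Subset.antisymm (hsub G G' (hgood G hG) (hgood G' hG') hcc)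
      (hsub G' G (hgood G' hG') (hgood G hG) hcc.symm)

lemma unbounded (K : ℕ) : ∃ r G, K ≤ r ∧ Good r G ∧ K * (2 * r) < arcC (TM r G (2 * r)) := by
  by_contra hc
  push Not at hc
  obtain ⟨a, ha⟩ : ∃ a, a = 16 * K * K + 20 * K + 4 := ⟨_, rfl⟩
  obtain ⟨r, hr⟩ : ∃ r, r = 2 ^ (2 * a) := ⟨_, rfl⟩
  have h1 : (a + 1) * (a + 1) ≤ r := by
    rw [hr, two_mul, pow_add]
    exact Nat.mul_le_mul (Nat.lt_two_pow_self) (Nat.lt_two_pow_self)
  have hKr : K ≤ r := by nlinarith
  have h2 := counting (r := r) (m := K * (2 * r)) fun G hG => hc r G hKr hG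
  have h3 : 2 * r + 2 * (K * (2 * r)) ≤ 2 ^ (2 * a + (4 * K + 2)) := by
    rw [pow_add, ← hr]
    have : 4 * K + 2 < 2 ^ (4 * K + 2) := Nat.lt_two_pow_self
    nlinarith
  have h4 : (2 * r + 2 * (K * (2 * r))) * (2 * r + 2 * (K * (2 * r))) + 1 ≤
      2 ^ (2 * (2 * a + (4 * K + 2)) + 1) := by
    rw [pow_succ, two_mul (2 * a + (4 * K + 2)), pow_add]
    have h5 := Nat.mul_le_mul h3 h3
    have h6 : 0 < 2 ^ (2 * a + (4 * K + 2)) * 2 ^ (2 * a + (4 * K + 2)) := by positivity
    omega
  have h5 := h2.trans (Nat.mul_le_mul_left _ (Nat.pow_le_pow_left h4 _))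
  rw [← pow_mul, ← pow_add, Nat.pow_le_pow_iff_right (by norm_num)] at h5
  have h6 : 0 < r := by rw [hr]; positivity
  have h7 : r ≤ 2 + (2 * (2 * a + (4 * K + 2)) + 1) * (K * 2) := by
    refine Nat.le_of_mul_le_mul_right ?_ h6
    nlinarith
  have h8 := h1.trans h7
  subst ha
  nlinarith [Nat.zero_le (K * K * K * K), Nat.zero_le (K * K * K), Nat.zero_le (K * K)]

/-- The ratios `arcC M / |E|` of gammoids on non-empty ground sets are dense in the positive
reals. -/
theorem result (a b : ℝ) (ha : 0 < a) (hab : a < b) :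
    ∃ M : Matroid ℕ, (∃ V A T, Represents V A T M) ∧ M.E.Nonempty ∧
      a < (arcC M : ℝ) / M.E.ncard ∧ (arcC M : ℝ) / M.E.ncard < b := by
  classical
  have hb : 0 < b := ha.trans hab
  obtain ⟨K, hK⟩ := exists_nat_gt (max b (a / (b - a)))
  have hK1 : b < K := lt_of_le_of_lt (le_max_left _ _) hK
  have hK2 : a < K * (b - a) := by
    have := lt_of_le_of_lt (le_max_right _ _) hK
    rwa [div_lt_iff₀ (by linarith)] at this
  obtain ⟨r, G, hr, hG, hlt⟩ := unbounded K
  have hex : ∃ N, 2 * r ≤ N ∧ (arcC (TM r G N) : ℝ) < b * N := by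
    obtain ⟨N, hN⟩ := exists_nat_gt ((G.card : ℝ) / b)
    rw [div_lt_iff₀ hb] at hN
    refine ⟨2 * r + N, by omega, ?_⟩
    have h1 := arcC_le (TM_rep (N := 2 * r + N) hG (by omega)).1
      (TM_rep (N := 2 * r + N) hG (by omega)).2
    have h2 : (arcC (TM r G (2 * r + N)) : ℝ) ≤ G.card := by exact_mod_cast h1
    have h3 : (0 : ℝ) ≤ b * (2 * r) := by positivity
    push_cast
    nlinarith
  obtain ⟨hN1, hN2⟩ := Nat.find_spec hex
  have hne : Nat.find hex ≠ 2 * r := by
    intro h
    rw [h] at hN2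
    have h1 : ((K * (2 * r) : ℕ) : ℝ) < arcC (TM r G (2 * r)) := by exact_mod_cast hlt
    push_cast at h1 hN2
    have h3 : (0 : ℝ) ≤ 2 * r := by positivity
    nlinarith
  obtain ⟨N, hN⟩ : ∃ N, Nat.find hex = N + 1 := ⟨Nat.find hex - 1, by omega⟩
  have hmin := Nat.find_min hex (m := N) (by omega)
  rw [hN] at hN1 hN2 hne
  have hN3 : 2 * r ≤ N := by omega
  have hN4 : b * N ≤ arcC (TM r G N) := not_lt.1 fun h => hmin ⟨hN3, h⟩
  have hN5 : (arcC (TM r G N) : ℝ) ≤ arcC (TM r G (N + 1)) := by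
    exact_mod_cast arcC_mono hG hN3
  have hKN : (K : ℝ) ≤ N := by
    have : K ≤ N := by omega
    exact_mod_cast this
  have hcard : ((TM r G (N + 1)).E.ncard : ℝ) = ((N + 1 : ℕ) : ℝ) := by
    rw [TM_E, ← Finset.coe_range, Set.ncard_coe_finset, Finset.card_range]
  have hpos : (0 : ℝ) < ((N + 1 : ℕ) : ℝ) := by positivity
  refine ⟨TM r G (N + 1), ⟨_, _, _, (TM_rep hG hN1).1⟩, ⟨0, Nat.succ_pos N⟩, ?_, ?_⟩
  · rw [hcard, lt_div_iff₀ hpos]
    push_cast
    nlinarith
  · rw [hcard, div_lt_iff₀ hpos]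
    exact hN2

end Pool.Agent.Results.MP_1bde1f_co.Dense
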